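-- Withdrawn hand-in (probably contained in J. Lee, Acta Arith. 140 (2009) 1-29); kept as a helper file only.
import Pool.Agent.Q20.BM.F

set_option autoImplicit false

namespace Pool.Agent.Q20.Withdrawn.ClassNumberPM2

/-- For every integer m > 20 and s = 2 or −2 with m²+s squarefree, every quadratic number field containing a square root of m²+s has class number greater than 1. -/
theorem classNumber_pm2 :
    ∀ m : ℤ, 20 < m → ∀ s : ℤ, (s = 2 ∨ s = -2) → Squarefree (m ^ 2 + s) →
      ∀ (K : Type) [Field K] [NumberField K], Module.finrank ℚ K = 2 →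
        (∃ x : K, x ^ 2 = ((m ^ 2 + s : ℤ) : K)) →
          1 < NumberField.classNumber K := by
  intro m hm s hs hsf K _ _ hK hx
  obtain ⟨x, hx⟩ := hx
  have hpos : 0 < NumberField.classNumber K := by
    unfold NumberField.classNumber
    exact Fintype.card_pos
  have h1 : NumberField.classNumber K ≠ 1 := by
    obtain ⟨k, hk⟩ : ∃ k : ℕ, (k : ℤ) = m := ⟨m.toNat, Int.toNat_of_nonneg (by omega)⟩
    have hk20 : 20 < k := by omega
    rw [← hk] at hsf hx
    rcases hs with rfl | rfl
    · exact Pool.Agent.Q20.BM.plus_not_one (k := k) (by omega) hsf hK hx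
    · have e : (k : ℤ) ^ 2 + -2 = (k : ℤ) ^ 2 - 2 := by ring
      rw [e] at hsf hx
      exact Pool.Agent.Q20.BM.minus_not_one (k := k) hk20 hsf hK hx
  omega

end Pool.Agent.Q20.Withdrawn.ClassNumberPM2
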