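-- Withdrawn hand-in (probably contained in J. Lee, Acta Arith. 140 (2009) 1-29); kept as a helper file only.
import Pool.Agent.Q20.BM.H

set_option autoImplicit false

namespace Pool.Agent.Q20.Withdrawn.PowersOfTwo

/-- For squarefree D ≡ 2,3 mod 4, if every Q_i in the continued fraction expansion of √D is a power of 2, then the real quadratic field ℚ(√D) has class number 1 exactly when D is 2, 3, 6, 11, 38, 83 or 227. -/
theorem classNumber_powersOfTwo :
    ∀ D : ℕ, Squarefree D → (D % 4 = 2 ∨ D % 4 = 3) →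
      ∀ P Q : ℕ → ℤ, P 0 = 0 → Q 0 = 1 →
        (∀ i : ℕ, P (i + 1) = ⌊((P i : ℝ) + Real.sqrt (D : ℝ)) / (Q i : ℝ)⌋ * Q i - P i) →
        (∀ i : ℕ, Q (i + 1) = ((D : ℤ) - P (i + 1) ^ 2) / Q i) →
        (∀ i : ℕ, ∃ k : ℕ, Q i = 2 ^ k) →
        ∀ (K : Type) [Field K] [NumberField K], Module.finrank ℚ K = 2 →
          (∃ x : K, x ^ 2 = (D : K)) →
          (NumberField.classNumber K = 1 ↔ D ∈ ({2, 3, 6, 11, 38, 83, 227} : Finset ℕ)) := by
  intro D hsf hD4 P Q hP0 hQ0 hP hQ hpow K _ _ hK hx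
  obtain ⟨x, hx⟩ := hx
  have hx' : x ^ 2 = ((D : ℤ) : K) := by rw [hx]; push_cast; rfl
  constructor
  swap
  · intro h
    exact Pool.Agent.Q20.BM.listed hsf hK hx' h
  intro hcl
  have hsfZ : Squarefree (D : ℤ) := Int.squarefree_natCast.mpr hsf
  have h1 := hP 0
  have h2 := hQ 0
  rw [hP0, hQ0] at h1
  rw [hQ0, h1] at h2
  obtain ⟨a, ha⟩ : ∃ a : ℕ, (a : ℤ) = ⌊(((0 : ℤ) : ℝ) + Real.sqrt (D : ℝ)) / ((1 : ℤ) : ℝ)⌋ := by
    refine ⟨⌊(((0 : ℤ) : ℝ) + Real.sqrt (D : ℝ)) / ((1 : ℤ) : ℝ)⌋.toNat, Int.toNat_of_nonneg ?_⟩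
    apply Int.floor_nonneg.mpr
    push_cast
    have := Real.sqrt_nonneg (D : ℝ)
    simp
  rw [← ha] at h2
  obtain ⟨k, hk⟩ := hpow (0 + 1)
  rw [hk] at h2
  have h3 : (2 : ℤ) ^ k = (D : ℤ) - (a : ℤ) ^ 2 := by
    rw [h2]; simp
  have hk2 : k = 0 ∨ k = 1 := by
    by_contra hc
    push Not at hc
    obtain ⟨j, rfl⟩ : ∃ j, k = j + 2 := ⟨k - 2, by omega⟩
    have h4 : (2 : ℤ) ^ (j + 2) % 4 = 0 := by
      rw [pow_add]
      norm_num
    rw [h3] at h4
    rcases Int.emod_two_eq_zero_or_one (a : ℤ) with h | h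
    · obtain ⟨i, hi⟩ : ∃ i, (a : ℤ) = 2 * i := ⟨a / 2, by omega⟩
      rw [hi] at h4
      have : (D : ℤ) - (2 * i) ^ 2 = D - 4 * (i ^ 2) := by ring
      rw [this] at h4
      omega
    · obtain ⟨i, hi⟩ : ∃ i, (a : ℤ) = 2 * i + 1 := ⟨a / 2, by omega⟩
      rw [hi] at h4
      have : (D : ℤ) - (2 * i + 1) ^ 2 = D - 4 * (i ^ 2 + i) - 1 := by ring
      rw [this] at h4
      omega
  rcases hk2 with rfl | rfl
  · have hD : (D : ℤ) = (a : ℤ) ^ 2 + 1 := by linarith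
    rcases Nat.even_or_odd a with he | ho
    · exfalso
      obtain ⟨i, hi⟩ := he
      have : (D : ℤ) = 4 * (i : ℤ) ^ 2 + 1 := by rw [hD, hi]; push_cast; ring
      omega
    · have ho' := Nat.odd_iff.mp ho
      rcases lt_or_ge a 2 with h | h
      · have : a = 1 := by omega
        subst this
        have : D = 2 := by norm_num at hD; omega
        rw [this]; decide
      · exact absurd hcl (Pool.Agent.Q20.BM.plus_one_not_one h ho' (by rw [← hD]; exact hsfZ) hK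
          (x := x) (by rw [← hD]; exact hx'))
  · have hD : (D : ℤ) = (a : ℤ) ^ 2 + 2 := by linarith
    have h5 := Pool.Agent.Q20.BM.plus_two_list (k := a) (by rw [← hD]; exact hsfZ) hK
          (x := x) (by rw [← hD]; exact hx') hcl
    have hD' : D = a ^ 2 + 2 := by exact_mod_cast hD
    rcases h5 with h5 | rfl | rfl | rfl
    · interval_cases a <;> rw [hD'] <;> decide
    · rw [hD']; decide
    · rw [hD']; decide
    · rw [hD']; decide

end Pool.Agent.Q20.Withdrawn.PowersOfTwo
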